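import Mathlib
import Pool.Agent.Helper66.ABC.CountQuality

set_option autoImplicit false

/-!
Many abc-triples of high quality: for all `K₁, K₂ ≥ 0` with `K₁ + K₂ < 8 √π e^{-3/4} = 6.698...` and
every large `X` there are at least `exp (K₂ √(log X) / log log X)` triples `(a, b, c)` of coprime
positive integers with `a < b`, `a + b = c ≤ X` and
`rad (abc) * exp (K₁ √(log X) / log log X) ≤ c`.

Method: a linear programming bound for the `ℓ¹` norm of the shortest vector in the kernel of a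
homomorphism from the lattice of exponent vectors to a finite group; if there were fewer than `q`
short vectors (`q` prime), then some homomorphism to `ZMod q` would not vanish at any of them,
and the bound for the group enlarged by `ZMod q` would give one more.
-/

namespace Pool.Agent.Results.MP_4ab349_nt.QualityCount

open Filter

theorem result (K₁ K₂ : ℝ) (hK₁ : 0 ≤ K₁) (hK₂ : 0 ≤ K₂)
    (hK : K₁ + K₂ < 8 * Real.sqrt Real.pi * Real.exp (-3 / 4)) :
    ∃ X₀ : ℝ, ∀ X : ℝ, X₀ ≤ X →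
      Real.exp (K₂ * Real.sqrt (Real.log X) / Real.log (Real.log X)) ≤
        ({t : ℕ × ℕ × ℕ | 0 < t.1 ∧ t.1 < t.2.1 ∧ t.1 + t.2.1 = t.2.2 ∧ Nat.Coprime t.1 t.2.1 ∧
          ((∏ p ∈ (t.1 * t.2.1 * t.2.2).primeFactors, p : ℕ) : ℝ) *
            Real.exp (K₁ * Real.sqrt (Real.log X) / Real.log (Real.log X)) < (t.2.2 : ℝ) ∧
          (t.2.2 : ℝ) ≤ X}.ncard : ℝ) := by
  obtain ⟨X₀, h⟩ := eventually_atTop.1 (Helper66.ABC.uniform_count K₁ K₂ hK₁ hK₂ hK)
  refine ⟨X₀, fun X hX => (h X hX).trans (le_of_eq ?_)⟩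
  congr 2
  ext t
  constructor
  · rintro ⟨⟨h1, h2, h3, h4, h5⟩, h6⟩
    exact ⟨h1, h2, h3, h4, h5, h6⟩
  · rintro ⟨h1, h2, h3, h4, h5, h6⟩
    exact ⟨⟨h1, h2, h3, h4, h5⟩, h6⟩

end Pool.Agent.Results.MP_4ab349_nt.QualityCount
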