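import Mathlib
import Pool.Agent.Helper42.RO.Final

/-!
# abc triples ordered by their radical

Pairs `(a, b)` of coprime positive integers, `c = a + b`, radical = product of the distinct primes
dividing `a b c`.
-/

set_option autoImplicit false

open Finset

namespace Pool.Agent.Results.MP_4ab349_nt.RadicalOrder

/-- For `0 < ε ≤ 1 / 100` there is `C` such that for every integer `Z ≥ 1` all but at most
`C Z ^ (1 - ε / 10)` of the pairs `(a, b)` of coprime positive integers with radical at most `Z` and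
`log c ≤ exp (Z ^ (ε / 50))` satisfy the following: `log c > Z ^ (1 / 3 - ε)`;
`log c > p ^ (1 - ε)` for all primes `p ∣ a b c`; some prime `p ∣ a b c` exceeds `Z ^ (1 / 3 - ε)`;
and the primes `p ∣ a b c` whose power `p ^ v` exactly dividing `a b c` is at most `c ^ (1 - ε)` have
product at most `Z ^ ε`. -/
theorem result (ε : ℝ) (hε : 0 < ε) (hε1 : ε ≤ 1 / 100) : ∃ C : ℝ, ∀ Z : ℕ, 1 ≤ Z →
    {t : ℕ × ℕ | 0 < t.1 ∧ 0 < t.2 ∧ t.1.Coprime t.2 ∧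
      (∏ p ∈ (t.1 * t.2 * (t.1 + t.2)).primeFactors, p) ≤ Z ∧
      Real.log ((t.1 + t.2 : ℕ) : ℝ) ≤ Real.exp ((Z : ℝ) ^ (ε / 50)) ∧
      ¬ ((Z : ℝ) ^ (1 / 3 - ε) < Real.log ((t.1 + t.2 : ℕ) : ℝ) ∧
          (∀ p ∈ (t.1 * t.2 * (t.1 + t.2)).primeFactors,
            (p : ℝ) ^ (1 - ε) < Real.log ((t.1 + t.2 : ℕ) : ℝ)) ∧
          (∃ p ∈ (t.1 * t.2 * (t.1 + t.2)).primeFactors, (Z : ℝ) ^ (1 / 3 - ε) < p) ∧
          ((∏ p ∈ (t.1 * t.2 * (t.1 + t.2)).primeFactors.filter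
            (fun p => ((p ^ (t.1 * t.2 * (t.1 + t.2)).factorization p : ℕ) : ℝ) ≤
              ((t.1 + t.2 : ℕ) : ℝ) ^ (1 - ε)), p : ℕ) : ℝ) ≤ (Z : ℝ) ^ ε)}.Finite ∧
    (({t : ℕ × ℕ | 0 < t.1 ∧ 0 < t.2 ∧ t.1.Coprime t.2 ∧
      (∏ p ∈ (t.1 * t.2 * (t.1 + t.2)).primeFactors, p) ≤ Z ∧
      Real.log ((t.1 + t.2 : ℕ) : ℝ) ≤ Real.exp ((Z : ℝ) ^ (ε / 50)) ∧
      ¬ ((Z : ℝ) ^ (1 / 3 - ε) < Real.log ((t.1 + t.2 : ℕ) : ℝ) ∧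
          (∀ p ∈ (t.1 * t.2 * (t.1 + t.2)).primeFactors,
            (p : ℝ) ^ (1 - ε) < Real.log ((t.1 + t.2 : ℕ) : ℝ)) ∧
          (∃ p ∈ (t.1 * t.2 * (t.1 + t.2)).primeFactors, (Z : ℝ) ^ (1 / 3 - ε) < p) ∧
          ((∏ p ∈ (t.1 * t.2 * (t.1 + t.2)).primeFactors.filter
            (fun p => ((p ^ (t.1 * t.2 * (t.1 + t.2)).factorization p : ℕ) : ℝ) ≤
              ((t.1 + t.2 : ℕ) : ℝ) ^ (1 - ε)), p : ℕ) : ℝ) ≤ (Z : ℝ) ^ ε)}.ncard : ℕ) : ℝ) ≤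
      C * (Z : ℝ) ^ (1 - ε / 10) := by
  obtain ⟨C, hC⟩ := Pool.Agent.Helper42.RO.second2 ε hε hε1
  refine ⟨C, fun Z hZ => hC Z hZ _ ?_⟩
  rintro t ⟨h1, h2, h3, h4, h5, h6⟩
  exact ⟨⟨h1, h2, h3⟩, h4, h5, h6⟩

end Pool.Agent.Results.MP_4ab349_nt.RadicalOrder
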